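import Pool.Agent.Lib.MP_c69b6d_co.F.Main
import Pool.Agent.Lib.MP_c69b6d_co.F.StageB
import Pool.Agent.Lib.MP_c69b6d_co.F.Final
import Pool.Agent.Lib.MP_c69b6d_co.F.CH
import Pool.Agent.Lib.MP_c69b6d_co.F.CI

namespace Pool.Agent.Results.MP_c69b6d_co.Nine

open Pool.Agent.Lib.MP_c69b6d_co Matroid

/-- The excluded minors for the class of ternary Rayleigh matroids are `U_{2,5}`, `U_{3,5}`, the
Fano matroid, its dual, and five explicit ternary matroids. -/
theorem result {α : Type} [Fintype α] (M : Matroid α) :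
    ExcludedMinor M ↔ IsUniform M 2 5 ∨ IsUniform M 3 5 ∨ IsFano M ∨ IsFano M✶ ∨
      ∃ A ∈ [A49, A52, A56, B172, B172d], IsCopy M A :=
  F.nine (fun _ _ M hT => F.link_full (F.ray_all F.main F.stageB) M hT)
    (fun _ _ M hT hm => F.four_of_min M hT hm) M

end Pool.Agent.Results.MP_c69b6d_co.Nine
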