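import Pool.Agent.Lib.MP_c69b6d_co.G.Main

namespace Pool.Agent.Results.MP_c69b6d_co.TriangleGlue

open Pool.Agent.Lib.MP_c69b6d_co Pool.Agent.Lib.MP_c69b6d_co.G Matroid

/-- Let the matroid `M = P ↾ X = K ↾ X` be glued along the triangle `T` to a regular matroid (giving
`P`) and to the cycle matroid of `K_4` (giving `K`). If `K` is Rayleigh, then so is `P`. -/
theorem result {α : Type} [Fintype α] (P K : Matroid α) (X Y T : Set α) (φ : Fin 6 → α)
    (hT : T = {φ 0, φ 1, φ 2}) (hP : Glue P X Y T) (hK : Glue K X (Set.range φ) T)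
    (hX : K ↾ X = P ↾ X) (h4 : IsK4 (K ↾ Set.range φ) φ) (hY : Regular (P ↾ Y))
    (hR : Rayleigh K) : Rayleigh P :=
  main P K X Y T φ hT hP hK hX h4 hY hR

end Pool.Agent.Results.MP_c69b6d_co.TriangleGlue
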